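import Mathlib

set_option autoImplicit false
open Filter Topology

namespace Pool.Agent.H.MP_d7d6c7_an

noncomputable def ev {I : Type} (f : I → ℝ) : (I →₀ ℝ) →ₗ[ℝ] ℝ := Finsupp.linearCombination ℝ f

theorem ev_apply {I : Type} (f : I → ℝ) (v : I →₀ ℝ) : ev f v = ∑ γ ∈ v.support, v γ * f γ := by
  simp [ev, Finsupp.linearCombination_apply, Finsupp.sum]

theorem ev_single {I : Type} (f : I → ℝ) (γ : I) (a : ℝ) : ev f (Finsupp.single γ a) = a * f γ := by
  simp [ev]

theorem ev_add {I : Type} (f g : I → ℝ) (v : I →₀ ℝ) : ev (f + g) v = ev f v + ev g v := by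
  simp [ev_apply, mul_add, Finset.sum_add_distrib]

theorem ev_smul {I : Type} (t : ℝ) (f : I → ℝ) (v : I →₀ ℝ) : ev (t • f) v = t * ev f v := by
  simp only [ev_apply, Finset.mul_sum, Pi.smul_apply, smul_eq_mul]
  exact Finset.sum_congr rfl (fun _ _ => by ring)

theorem ev_congr {I : Type} {f g : I → ℝ} {v : I →₀ ℝ} (h : ∀ γ ∈ v.support, f γ = g γ) :
    ev f v = ev g v := by
  simp only [ev_apply]
  exact Finset.sum_congr rfl (fun γ hγ => by rw [h γ hγ])

theorem ev_zero {I : Type} (v : I →₀ ℝ) : ev (0 : I → ℝ) v = 0 := by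
  simp [ev_apply]

theorem null_of_bdd (a : ℕ → ℝ) (M : ℝ)
    (h : ∀ (F : Finset ℕ) (ε : ℕ → ℝ), (∀ i, |ε i| ≤ 1) → ∑ i ∈ F, ε i * a i ≤ M) :
    Tendsto a atTop (𝓝 0) := by
  have hs : Summable (fun i => |a i|) := by
    refine summable_of_sum_le (c := M) (fun i => abs_nonneg _) (fun F => ?_)
    have := h F (fun i => if 0 ≤ a i then 1 else -1) (fun i => by split_ifs <;> simp)
    refine le_trans (le_of_eq (Finset.sum_congr rfl (fun i _ => ?_))) this
    split_ifs with h0
    · simp [abs_of_nonneg h0]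
    · simp [abs_of_neg (not_le.mp h0)]
  have := hs.tendsto_atTop_zero
  exact (tendsto_zero_iff_abs_tendsto_zero _).mpr this

theorem ev_small {a : ℕ → ℝ} (h : Tendsto a atTop (𝓝 0)) {e : ℝ} (he : 0 < e) :
    ∀ᶠ i in atTop, |a i| ≤ e := by
  have := (Metric.tendsto_nhds.mp h) e he
  filter_upwards [this] with i hi
  rw [Real.dist_eq, sub_zero] at hi
  exact hi.le

theorem gh {I J : Type} (β : I → J) (v : ℕ → I →₀ ℝ) (Ψ : Set (I → ℝ))
    (Q : ℕ → (I → ℝ) → Prop) (h : ℕ → ℝ)
    (ha : ∀ b : J, ∀ e : ℝ, 0 < e → ∀ᶠ i in atTop, ∀ f ∈ Ψ,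
      |ev ((β ⁻¹' {b}).indicator f) (v i)| ≤ e)
    (hQ0 : Q 0 0)
    (hQs : ∀ n G f (U S : Set J), Q n G → (∀ γ, β γ ∉ U → G γ = 0) → f ∈ Ψ → Disjoint S U →
      Q (n + 1) (G + (β ⁻¹' S).indicator f))
    (hc : ∀ n G, Q n G → ∀ (F : Finset ℕ) (ε : ℕ → ℝ), (∀ i, |ε i| ≤ 1) →
      ∑ i ∈ F, ε i * ev G (v i) ≤ h n)
    (hh : ∀ δ : ℝ, 0 < δ → ∃ n : ℕ, h n < n * δ) :
    ∀ e : ℝ, 0 < e → ∀ᶠ i in atTop, ∀ f ∈ Ψ, |ev f (v i)| ≤ e := by
  classical
  have hU : ∀ U : Finset J, ∀ e : ℝ, 0 < e → ∀ᶠ i in atTop, ∀ f ∈ Ψ,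
      |ev ((β ⁻¹' (U : Set J)).indicator f) (v i)| ≤ e := by
    intro U
    induction U using Finset.induction_on with
    | empty =>
      intro e he
      refine Eventually.of_forall (fun i f _ => ?_)
      have : ((β ⁻¹' ((∅ : Finset J) : Set J)).indicator f) = 0 := by
        ext γ; simp
      rw [this, ev_zero]; simpa using he.le
    | insert b U hb ih =>
      intro e he
      filter_upwards [ha b (e / 2) (by linarith), ih (e / 2) (by linarith)] with i h1 h2 f hf
      have : ((β ⁻¹' ((insert b U : Finset J) : Set J)).indicator f)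
          = (β ⁻¹' {b}).indicator f + (β ⁻¹' (U : Set J)).indicator f := by
        ext γ
        by_cases h3 : β γ = b
        · have h4 : β γ ∉ U := by rw [h3]; exact hb
          simp [Set.indicator, h3, hb]
        · by_cases h4 : β γ ∈ U <;> simp [Set.indicator, h3, h4]
      rw [this, ev_add]
      have := abs_add_le (ev ((β ⁻¹' {b}).indicator f) (v i))
        (ev ((β ⁻¹' (U : Set J)).indicator f) (v i))
      linarith [h1 f hf, h2 f hf]
  intro e he
  by_contra hcon
  have hfr : ∃ᶠ i in atTop, ∃ f ∈ Ψ, e < |ev f (v i)| := by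
    rw [Filter.not_eventually] at hcon
    refine hcon.mono (fun i hi => ?_)
    push Not at hi
    exact hi
  have key : ∀ n : ℕ, ∃ (G : I → ℝ) (F : Finset ℕ) (ε : ℕ → ℝ) (U : Finset J), Q n G ∧
      (∀ γ, β γ ∉ U → G γ = 0) ∧ (∀ i ∈ F, ∀ γ ∈ (v i).support, β γ ∈ U) ∧ (∀ i, |ε i| ≤ 1) ∧
      n * (e / 2) ≤ ∑ i ∈ F, ε i * ev G (v i) := by
    intro n
    induction n with
    | zero => exact ⟨0, ∅, 0, ∅, hQ0, fun _ _ => rfl, by simp, by simp, by simp⟩
    | succ n ih =>
      obtain ⟨G, F, ε, U, hQ, hG, hF, hε, hs⟩ := ih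
      have hlim := null_of_bdd _ _ (hc n G hQ)
      have h1 := ev_small hlim (show 0 < e / 4 by linarith)
      have h2 := hU U (e / 4) (by linarith)
      have h3 : ∀ᶠ i in atTop, i ∉ F := by
        filter_upwards [eventually_gt_atTop (F.sup id)] with i hi hm
        exact absurd (Finset.le_sup (f := id) hm) (not_le.mpr hi)
      obtain ⟨i, ⟨f, hf, hfe⟩, hi1, hi2, hi3⟩ := (hfr.and_eventually (h1.and (h2.and h3))).exists
      set U' : Finset J := U ∪ (v i).support.image β with hU'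
      set S : Set J := (U' : Set J) \ (U : Set J) with hS
      set σ : ℝ := if 0 ≤ ev f (v i) then 1 else -1 with hσ
      have hσ1 : |σ| ≤ 1 := by rw [hσ]; split_ifs <;> simp
      have hσ2 : σ * ev f (v i) = |ev f (v i)| := by
        rw [hσ]; split_ifs with h0
        · simp [abs_of_nonneg h0]
        · simp [abs_of_neg (not_le.mp h0)]
      refine ⟨G + (β ⁻¹' S).indicator f, insert i F, Function.update ε i σ, U', ?_, ?_, ?_, ?_, ?_⟩
      · exact hQs n G f U S hQ (fun γ hγ => hG γ (by simpa using hγ)) hf Set.disjoint_sdiff_left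
      · intro γ hγ
        have h4 : β γ ∉ U := fun hh => hγ (Finset.mem_union_left _ hh)
        have h5 : γ ∉ β ⁻¹' S := fun hh => hγ (by simpa using hh.1)
        simp [hG γ h4, Set.indicator_of_notMem h5]
      · intro l hl γ hγ
        rcases Finset.mem_insert.mp hl with rfl | hl
        · exact Finset.mem_union_right _ (Finset.mem_image_of_mem _ hγ)
        · exact Finset.mem_union_left _ (hF l hl γ hγ)
      · intro l
        by_cases hl : l = i
        · subst hl; simpa using hσ1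
        · rw [Function.update_of_ne hl]; exact hε l
      · rw [Finset.sum_insert hi3, Function.update_self]
        have e1 : ∑ l ∈ F, Function.update ε i σ l * ev (G + (β ⁻¹' S).indicator f) (v l)
            = ∑ l ∈ F, ε l * ev G (v l) := by
          refine Finset.sum_congr rfl (fun l hl => ?_)
          have hne : l ≠ i := fun hh => hi3 (hh ▸ hl)
          rw [Function.update_of_ne hne]
          congr 1
          refine ev_congr (fun γ hγ => ?_)
          have h5 : γ ∉ β ⁻¹' S := fun hh => hh.2 (by simpa using hF l hl γ hγ)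
          simp [Set.indicator_of_notMem h5]
        have e2 : ev f (v i) = ev ((β ⁻¹' S).indicator f) (v i)
            + ev ((β ⁻¹' (U : Set J)).indicator f) (v i) := by
          rw [← ev_add]
          refine ev_congr (fun γ hγ => ?_)
          have h6 : β γ ∈ U' := Finset.mem_union_right _ (Finset.mem_image_of_mem _ hγ)
          by_cases h4 : β γ ∈ U
          · have h5 : γ ∉ β ⁻¹' S := fun hh => hh.2 (by simpa using h4)
            have h7 : γ ∈ β ⁻¹' (U : Set J) := by simpa using h4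
            simp [Set.indicator_of_notMem h5, Set.indicator_of_mem h7]
          · have h5 : γ ∈ β ⁻¹' S := ⟨by simpa using h6, by simpa using h4⟩
            have h7 : γ ∉ β ⁻¹' (U : Set J) := by simpa using h4
            simp [Set.indicator_of_mem h5, Set.indicator_of_notMem h7]
        rw [e1, ev_add]
        have b1 : |σ * ev G (v i)| ≤ e / 4 := by
          rw [abs_mul]
          calc |σ| * |ev G (v i)| ≤ 1 * (e / 4) := mul_le_mul hσ1 hi1 (abs_nonneg _) zero_le_one
            _ = e / 4 := one_mul _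
        have b2 : |σ * ev ((β ⁻¹' (U : Set J)).indicator f) (v i)| ≤ e / 4 := by
          rw [abs_mul]
          calc |σ| * |ev ((β ⁻¹' (U : Set J)).indicator f) (v i)| ≤ 1 * (e / 4) :=
              mul_le_mul hσ1 (hi2 f hf) (abs_nonneg _) zero_le_one
            _ = e / 4 := one_mul _
        have b3 : σ * ev ((β ⁻¹' S).indicator f) (v i)
            = |ev f (v i)| - σ * ev ((β ⁻¹' (U : Set J)).indicator f) (v i) := by
          rw [← hσ2, e2]; ring
        have b4 := abs_le.mp b1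
        have b5 := abs_le.mp b2
        push_cast
        nlinarith [b4.1, b5.2, b3, hfe, hs]
  obtain ⟨n, hn⟩ := hh (e / 2) (by linarith)
  obtain ⟨G, F, ε, U, hQ, -, -, hε, hs⟩ := key n
  have := hc n G hQ F ε hε
  linarith

theorem gh1 {I : Type} (v : ℕ → I →₀ ℝ) (Ψ : Set (I → ℝ))
    (Q : ℕ → (I → ℝ) → Prop) (h : ℕ → ℝ)
    (hb : ∀ f ∈ Ψ, ∀ γ, |f γ| ≤ 2)
    (hQ0 : Q 0 0)
    (hQs : ∀ n G f (U S : Set I), Q n G → (∀ γ, γ ∉ U → G γ = 0) → f ∈ Ψ → Disjoint S U →
      Q (n + 1) (G + S.indicator f))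
    (hc : ∀ n G, Q n G → ∀ (F : Finset ℕ) (ε : ℕ → ℝ), (∀ i, |ε i| ≤ 1) →
      ∑ i ∈ F, ε i * ev G (v i) ≤ h n)
    (hh : ∀ δ : ℝ, 0 < δ → ∃ n : ℕ, h n < n * δ) :
    ∀ e : ℝ, 0 < e → ∀ᶠ i in atTop, ∀ f ∈ Ψ, |ev f (v i)| ≤ e := by
  classical
  have hev : ∀ (b : I) (f : I → ℝ) (w : I →₀ ℝ),
      ev (({b} : Set I).indicator f) w = w b * f b := by
    intro b f w
    rw [ev_apply, Finset.sum_eq_single b]
    · simp
    · intro γ _ hγ
      simp [Set.indicator, hγ]
    · intro hb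
      simp [Finsupp.notMem_support_iff.mp hb]
  refine gh (fun γ => γ) v Ψ Q h ?_ hQ0 hQs hc hh
  intro b e he
  have hpre : ((fun γ : I => γ) ⁻¹' {b}) = ({b} : Set I) := rfl
  simp only [hpre, hev]
  by_cases h0 : ∃ f ∈ Ψ, f b ≠ 0
  · obtain ⟨f0, hf0, hne⟩ := h0
    have hq := hQs 0 0 f0 ∅ {b} hQ0 (fun _ _ => rfl) hf0 (by simp)
    have hlim := null_of_bdd _ _ (hc _ _ hq)
    simp only [zero_add, hev] at hlim
    have hl2 : Tendsto (fun i => v i b) atTop (𝓝 0) := by
      have := hlim.mul_const (f0 b)⁻¹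
      simpa [mul_assoc, hne] using this
    filter_upwards [ev_small hl2 (show 0 < e / 2 by linarith)] with i hi f hf
    rw [abs_mul]
    calc |v i b| * |f b| ≤ (e / 2) * 2 := mul_le_mul hi (hb f hf b) (abs_nonneg _) (by linarith)
      _ = e := by ring
  · push Not at h0
    exact Eventually.of_forall (fun i f hf => by simp [h0 f hf, he.le])

theorem sqrt_small (M δ : ℝ) (hδ : 0 < δ) : ∃ n : ℕ, M * √(n + 1) < n * δ := by
  obtain ⟨n, hn⟩ := exists_nat_gt ((M / δ) ^ 2 + 1)
  refine ⟨n, ?_⟩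
  have hx : 0 ≤ (M / δ) ^ 2 := sq_nonneg _
  have hn0 : (0 : ℝ) < n := by linarith
  have h1 : |M / δ| * √(n + 1) < n := by
    apply lt_of_pow_lt_pow_left₀ 2 hn0.le
    rw [mul_pow, Real.sq_sqrt (by linarith), sq_abs]
    nlinarith
  have h2 : M / δ * √(n + 1) < n :=
    lt_of_le_of_lt (mul_le_mul_of_nonneg_right (le_abs_self _) (Real.sqrt_nonneg _)) h1
  have h3 : M * √(n + 1) = (M / δ * √(n + 1)) * δ := by field_simp
  rw [h3]
  exact mul_lt_mul_of_pos_right h2 hδ

end Pool.Agent.H.MP_d7d6c7_an
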