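import Pool.Agent.H.MP_d7d6c7_an.A

set_option autoImplicit false
open Filter Topology

namespace Pool.Agent.H.MP_d7d6c7_an

inductive T : Type
  | leaf (n : ℕ) : T
  | node (A : ℕ → T) (i : ℕ) : T

def supp : T → Set ℕ
  | .leaf n => {n}
  | .node A _ => ⋃ m, supp (A m)

def Good : ℕ → T → Prop
  | 0, w => ∃ n, w = .leaf n
  | j + 1, w => ∃ A i, w = .node A i ∧ (∀ m, Good j (A m)) ∧
      Pairwise (fun p q => Disjoint (supp (A p)) (supp (A q)))

def Fam (j : ℕ) (A : ℕ → T) : Prop :=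
  (∀ m, Good j (A m)) ∧ Pairwise (fun p q => Disjoint (supp (A p)) (supp (A q)))

def FamOn (s : Finset ℕ) (j : ℕ) (w : ℕ → T) : Prop :=
  (∀ m ∈ s, Good j (w m)) ∧ (s : Set ℕ).Pairwise (fun p q => Disjoint (supp (w p)) (supp (w q)))

abbrev Ix : Type := ℕ ⊕ (ℕ × (ℕ → T))

def val (k : ℕ) (f : Ix → ℝ) : T → ℝ
  | .leaf n => f (.inl n)
  | .node A i => val k f (A i) - f (.inr (k, A))

noncomputable def vec (k : ℕ) : T → (Ix →₀ ℝ)
  | .leaf n => Finsupp.single (.inl n) 1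
  | .node A i => vec k (A i) - Finsupp.single (.inr (k, A)) 1

theorem ev_vec (k : ℕ) (f : Ix → ℝ) (w : T) : ev f (vec k w) = val k f w := by
  induction w with
  | leaf n => simp [vec, val, ev_single]
  | node A i ih => simp [vec, val, ev_single, ih i]

def kids : T → ℕ → T
  | .leaf n => fun _ => .leaf n
  | .node A _ => A

def idx : T → ℕ
  | .leaf _ => 0
  | .node _ i => i

theorem good_succ {j : ℕ} {w : T} (h : Good (j + 1) w) :
    w = .node (kids w) (idx w) ∧ Fam j (kids w) := by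
  obtain ⟨A, i, rfl, h1, h2⟩ := h
  exact ⟨rfl, h1, h2⟩

theorem good_node {j : ℕ} {A : ℕ → T} (h : Fam j A) (i : ℕ) : Good (j + 1) (.node A i) :=
  ⟨A, i, rfl, h.1, h.2⟩

theorem supp_sub (A : ℕ → T) (i m : ℕ) : supp (A m) ⊆ supp (.node A i) :=
  Set.subset_iUnion (fun m => supp (A m)) m

def PhiAt (k : ℕ) (f : Ix → ℝ) : Prop :=
  (∀ j, j ≤ k → ∀ (s : Finset ℕ) (w : ℕ → T), FamOn s j w →
    ∑ m ∈ s, val k f (w m) ^ 2 ≤ (1 / 2) ^ j) ∧
  ∀ A, (¬ ∃ j, j < k ∧ Fam j A) → f (.inr (k, A)) = 0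

def Phi (f : Ix → ℝ) : Prop := ∀ k, PhiAt k f

theorem val_congr {k : ℕ} {f g : Ix → ℝ} (h1 : ∀ n, f (.inl n) = g (.inl n))
    (h2 : ∀ A, f (.inr (k, A)) = g (.inr (k, A))) (w : T) : val k f w = val k g w := by
  induction w with
  | leaf n => exact h1 n
  | node A i ih => simp [val, ih i, h2]

theorem PhiAt.congr {k : ℕ} {f g : Ix → ℝ} (hg : PhiAt k g) (h1 : ∀ n, f (.inl n) = g (.inl n))
    (h2 : ∀ A, f (.inr (k, A)) = g (.inr (k, A))) : PhiAt k f := by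
  refine ⟨fun j hj s w hw => ?_, fun A hA => by rw [h2]; exact hg.2 A hA⟩
  simp only [val_congr h1 h2]
  exact hg.1 j hj s w hw

theorem val_zero (k : ℕ) (w : T) : val k 0 w = 0 := by
  rw [← ev_vec, ev_zero]

theorem val_smul (k : ℕ) (t : ℝ) (f : Ix → ℝ) (w : T) : val k (t • f) w = t * val k f w := by
  rw [← ev_vec, ev_smul, ev_vec]

theorem phi_zero : Phi 0 := fun k =>
  ⟨fun j _ s w _ => by simp [val_zero], fun _ _ => rfl⟩

theorem PhiAt.single {k j : ℕ} {f : Ix → ℝ} (hf : PhiAt k f) (hj : j ≤ k) {w : T} (hw : Good j w) :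
    val k f w ^ 2 ≤ (1 / 2) ^ j := by
  have := hf.1 j hj {0} (fun _ => w) ⟨fun _ _ => hw, by simp⟩
  simpa using this

theorem half_pow_le (j : ℕ) : ((1 : ℝ) / 2) ^ j ≤ 1 := pow_le_one₀ (by norm_num) (by norm_num)

theorem Phi.bdd {f : Ix → ℝ} (hf : Phi f) (γ : Ix) : |f γ| ≤ 2 := by
  rcases γ with n | ⟨k, A⟩
  · have := (hf 0).single (le_refl 0) (w := .leaf n) ⟨n, rfl⟩
    simp only [val, pow_zero] at this
    have := abs_le_one_iff_mul_self_le_one.mpr (show f (.inl n) * f (.inl n) ≤ 1 by nlinarith)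
    linarith
  · by_cases h : ∃ j, j < k ∧ Fam j A
    · obtain ⟨j, hj, hA⟩ := h
      have h1 := (hf k).single hj.le (hA.1 0)
      have h2 := (hf k).single (show j + 1 ≤ k from hj) (good_node hA 0)
      have h3 := half_pow_le j
      have h4 := half_pow_le (j + 1)
      simp only [val] at h2
      apply abs_le_of_sq_le_sq' _ (by norm_num) |> abs_le.mpr
      nlinarith [sq_nonneg (2 * val k f (A 0) - f (.inr (k, A)))]
    · rw [(hf k).2 A h]; simp

theorem Phi.leaves {f : Ix → ℝ} (hf : Phi f) (s : Finset ℕ) : ∑ m ∈ s, f (.inl m) ^ 2 ≤ 1 := by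
  have := (hf 0).1 0 le_rfl s (fun m => .leaf m) ⟨fun m _ => ⟨m, rfl⟩, fun p _ q _ hpq => by
    simpa [supp] using hpq⟩
  simpa [val] using this

def Lat (k : ℕ) (c : ℝ) (G : Ix → ℝ) : Prop :=
  ∀ j, j < k → ∀ (s : Finset ℕ) (A : ℕ → ℕ → T), (∀ m ∈ s, Fam j (A m)) →
    (s : Set ℕ).Pairwise (fun p q => Disjoint (supp (.node (A p) 0)) (supp (.node (A q) 0))) →
    ∑ m ∈ s, G (.inr (k, A m)) ^ 2 ≤ c

theorem PhiAt.lat {k : ℕ} {f : Ix → ℝ} (hf : PhiAt k f) : Lat k 4 f := by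
  intro j hj s A hA hd
  have h1 := hf.1 j hj.le s (fun m => A m 0) ⟨fun m hm => (hA m hm).1 0, fun p hp q hq hpq =>
    (hd hp hq hpq).mono (supp_sub _ _ _) (supp_sub _ _ _)⟩
  have h2 := hf.1 (j + 1) hj s (fun m => .node (A m) 0) ⟨fun m hm => good_node (hA m hm) 0, hd⟩
  have h3 := half_pow_le j
  have h4 := half_pow_le (j + 1)
  have h5 : ∑ m ∈ s, f (.inr (k, A m)) ^ 2
      ≤ ∑ m ∈ s, (2 * val k f (A m 0) ^ 2 + 2 * val k f (.node (A m) 0) ^ 2) := by
    refine Finset.sum_le_sum (fun m _ => ?_)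
    simp only [val]
    nlinarith [sq_nonneg (2 * val k f (A m 0) - f (.inr (k, A m)))]
  rw [Finset.sum_add_distrib, ← Finset.mul_sum, ← Finset.mul_sum] at h5
  linarith

theorem Lat.val_le {k : ℕ} {c : ℝ} {G : Ix → ℝ} (hc : 0 ≤ c) (hG : Lat k c G)
    (h0 : ∀ n, G (.inl n) = 0) : ∀ j, j ≤ k → ∀ (s : Finset ℕ) (w : ℕ → T), FamOn s j w →
    ∑ m ∈ s, val k G (w m) ^ 2 ≤ 4 ^ j * c := by
  intro j
  induction j with
  | zero =>
    intro _ s w hw
    rw [Finset.sum_eq_zero]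
    · simpa using hc
    · intro m hm
      obtain ⟨n, hn⟩ := hw.1 m hm
      simp [hn, val, h0]
  | succ j ih =>
    intro hj s w hw
    have hk := fun m hm => good_succ (hw.1 m hm)
    have hs : ∀ m ∈ s, supp (.node (kids (w m)) 0) = supp (w m) := by
      intro m hm
      conv_rhs => rw [(hk m hm).1]
      rfl
    have h1 := ih (Nat.le_of_succ_le hj) s (fun m => kids (w m) (idx (w m)))
      ⟨fun m hm => (hk m hm).2.1 _, fun p hp q hq hpq => (hw.2 hp hq hpq).mono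
        (by rw [← hs p hp]; exact supp_sub _ _ _) (by rw [← hs q hq]; exact supp_sub _ _ _)⟩
    have h2 := hG j hj s (fun m => kids (w m)) (fun m hm => (hk m hm).2) (fun p hp q hq hpq => by
      simp only []
      rw [hs p hp, hs q hq]; exact hw.2 hp hq hpq)
    have h5 : ∑ m ∈ s, val k G (w m) ^ 2 ≤ ∑ m ∈ s, (2 * val k G (kids (w m) (idx (w m))) ^ 2
        + 2 * G (.inr (k, kids (w m))) ^ 2) := by
      refine Finset.sum_le_sum (fun m hm => ?_)
      have : val k G (w m) = val k G (kids (w m) (idx (w m))) - G (.inr (k, kids (w m))) := by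
        conv_lhs => rw [(hk m hm).1]
        rfl
      rw [this]
      nlinarith [sq_nonneg (val k G (kids (w m) (idx (w m))) + G (.inr (k, kids (w m))))]
    rw [Finset.sum_add_distrib, ← Finset.mul_sum, ← Finset.mul_sum] at h5
    have h6 : (1 : ℝ) ≤ 4 ^ j := one_le_pow₀ (by norm_num)
    rw [pow_succ]
    nlinarith

noncomputable def mid (a : ℕ → ℝ) : ℝ := ((⨆ m, a m) + ⨅ m, a m) / 2

theorem mid_le (a : ℕ → ℝ) (R : ℝ) (h : ∀ p q, a p - a q ≤ 2 * R) (i : ℕ) : |a i - mid a| ≤ R := by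
  have hb : BddAbove (Set.range a) := ⟨a 0 + 2 * R, by
    rintro _ ⟨p, rfl⟩; linarith [h p 0]⟩
  have hb' : BddBelow (Set.range a) := ⟨a 0 - 2 * R, by
    rintro _ ⟨p, rfl⟩; linarith [h 0 p]⟩
  have h1 : a i ≤ ⨆ m, a m := le_ciSup hb i
  have h2 : ⨅ m, a m ≤ a i := ciInf_le hb' i
  have h3 : (⨆ m, a m) - 2 * R ≤ ⨅ m, a m :=
    le_ciInf (fun q => by
      have : (⨆ m, a m) ≤ a q + 2 * R := ciSup_le (fun p => by linarith [h p q])
      linarith)
  rw [abs_le, mid]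
  constructor <;> linarith

noncomputable def cval (φ : ℕ → ℝ) : T → ℝ
  | .leaf n => φ n
  | .node A i => cval φ (A i) - mid (fun m => cval φ (A m))

open Classical in
noncomputable def cext (φ : ℕ → ℝ) : Ix → ℝ
  | .inl n => φ n
  | .inr (k, A) => if ∃ j, j < k ∧ Fam j A then mid (fun m => cval φ (A m)) else 0

theorem val_cext (φ : ℕ → ℝ) (k : ℕ) : ∀ j, j ≤ k → ∀ w, Good j w → val k (cext φ) w = cval φ w := by
  intro j
  induction j with
  | zero => rintro _ w ⟨n, rfl⟩; rfl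
  | succ j ih =>
    rintro hj w ⟨A, i, rfl, h1, h2⟩
    have : ∃ j, j < k ∧ Fam j A := ⟨j, hj, h1, h2⟩
    simp only [val, cval, cext, if_pos this, ih (Nat.le_of_succ_le hj) _ (h1 i)]

noncomputable def mu (s0 : Finset ℕ) (φ : ℕ → ℝ) (S : Set ℕ) : ℝ :=
  ∑ n ∈ s0, S.indicator (fun n => φ n ^ 2) n

theorem mu_nonneg (s0 : Finset ℕ) (φ : ℕ → ℝ) (S : Set ℕ) : 0 ≤ mu s0 φ S :=
  Finset.sum_nonneg (fun n _ => Set.indicator_nonneg (fun _ _ => sq_nonneg _) n)

theorem mu_sum (s0 : Finset ℕ) (φ : ℕ → ℝ) (s : Finset ℕ) (S : ℕ → Set ℕ) (U : Set ℕ)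
    (hU : ∀ m ∈ s, S m ⊆ U) (hd : (s : Set ℕ).Pairwise (fun p q => Disjoint (S p) (S q))) :
    ∑ m ∈ s, mu s0 φ (S m) ≤ mu s0 φ U := by
  unfold mu
  rw [Finset.sum_comm]
  refine Finset.sum_le_sum (fun n _ => ?_)
  by_cases h : ∃ m ∈ s, n ∈ S m
  · obtain ⟨m, hm, hn⟩ := h
    rw [Finset.sum_eq_single m]
    · rw [Set.indicator_of_mem hn, Set.indicator_of_mem (hU m hm hn)]
    · intro b hb hne
      exact Set.indicator_of_notMem (fun hb' => Set.disjoint_left.mp (hd hb hm hne) hb' hn) _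
    · intro hh; exact absurd hm hh
  · push Not at h
    rw [Finset.sum_eq_zero (fun m hm => Set.indicator_of_notMem (h m hm) _)]
    exact Set.indicator_nonneg (fun _ _ => sq_nonneg _) n

theorem cval_le (s0 : Finset ℕ) (φ : ℕ → ℝ) (h0 : ∀ n, n ∉ s0 → φ n = 0) :
    ∀ j w, Good j w → cval φ w ^ 2 ≤ (1 / 2) ^ j * mu s0 φ (supp w) := by
  intro j
  induction j with
  | zero =>
    rintro w ⟨n, rfl⟩
    simp only [cval, supp, pow_zero, one_mul]
    by_cases hn : n ∈ s0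
    · have := Finset.single_le_sum (f := fun m => ({n} : Set ℕ).indicator (fun n => φ n ^ 2) m)
        (fun m _ => Set.indicator_nonneg (fun _ _ => sq_nonneg _) m) hn
      simpa [mu] using this
    · rw [h0 n hn]; simpa using mu_nonneg _ _ _
  | succ j ih =>
    rintro w ⟨A, i, rfl, h1, h2⟩
    set M := (1 / 2 : ℝ) ^ (j + 1) * mu s0 φ (supp (.node A i)) with hM
    have hM0 : 0 ≤ M := mul_nonneg (by positivity) (mu_nonneg _ _ _)
    have := mid_le (fun m => cval φ (A m)) (√M) (fun p q => ?_) i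
    · simp only [cval]
      have h3 := sq_le_sq' (abs_le.mp this).1 (abs_le.mp this).2
      rwa [Real.sq_sqrt hM0] at h3
    · by_cases hpq : p = q
      · subst hpq; simp
      · have h4 := mu_sum s0 φ {p, q} (fun m => supp (A m)) (supp (.node A i))
          (fun m _ => supp_sub _ _ _) (fun a _ b _ hab => h2 hab)
        rw [Finset.sum_pair hpq] at h4
        have h5 := ih _ (h1 p)
        have h6 := ih _ (h1 q)
        have h7 : (0 : ℝ) ≤ (1 / 2) ^ j := by positivity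
        have h8 : (cval φ (A p) - cval φ (A q)) ^ 2 ≤ (2 * √M) ^ 2 := by
          rw [mul_pow, Real.sq_sqrt hM0, hM, pow_succ (1 / 2 : ℝ) j]
          nlinarith [sq_nonneg (cval φ (A p) + cval φ (A q)), mul_le_mul_of_nonneg_left h4 h7]
        exact le_trans (le_abs_self _) (abs_le_of_sq_le_sq' h8 (by positivity) |> abs_le.mpr)

theorem phi_cext (s0 : Finset ℕ) (φ : ℕ → ℝ) (h0 : ∀ n, n ∉ s0 → φ n = 0)
    (h1 : ∑ n ∈ s0, φ n ^ 2 ≤ 1) : Phi (cext φ) := by
  intro k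
  refine ⟨fun j hj s w hw => ?_, fun A hA => by simp only [cext, if_neg hA]⟩
  have h2 := mu_sum s0 φ s (fun m => supp (w m)) Set.univ (fun _ _ => Set.subset_univ _) hw.2
  have h3 : mu s0 φ Set.univ ≤ 1 := by simpa [mu] using h1
  have h7 : (0 : ℝ) ≤ (1 / 2) ^ j := by positivity
  calc ∑ m ∈ s, val k (cext φ) (w m) ^ 2 ≤ ∑ m ∈ s, (1 / 2) ^ j * mu s0 φ (supp (w m)) :=
        Finset.sum_le_sum (fun m hm => by
          rw [val_cext φ k j hj _ (hw.1 m hm)]; exact cval_le s0 φ h0 j _ (hw.1 m hm))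
    _ = (1 / 2) ^ j * ∑ m ∈ s, mu s0 φ (supp (w m)) := by rw [Finset.mul_sum]
    _ ≤ (1 / 2) ^ j * 1 := mul_le_mul_of_nonneg_left (h2.trans h3) h7
    _ = (1 / 2) ^ j := mul_one _

end Pool.Agent.H.MP_d7d6c7_an
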