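import Pool.Agent.H.MP_d7d6c7_an.B

set_option autoImplicit false
open Filter Topology

namespace Pool.Agent.H.MP_d7d6c7_an

def W (v : ℕ → Ix →₀ ℝ) (C : ℝ) : Prop :=
  ∀ g, Phi g → ∀ (F : Finset ℕ) (ε : ℕ → ℝ), (∀ i, |ε i| ≤ 1) → ∑ i ∈ F, ε i * ev g (v i) ≤ C

def beta : Ix → Option ℕ
  | .inl _ => none
  | .inr (k, _) => some k

theorem scale_le {I : Type} {v : ℕ → I →₀ ℝ} {G : I → ℝ} {F : Finset ℕ} {ε : ℕ → ℝ} {C D : ℝ}
    (hD : 0 < D) (h : ∑ i ∈ F, ε i * ev (D⁻¹ • G) (v i) ≤ C) :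
    ∑ i ∈ F, ε i * ev G (v i) ≤ C * D := by
  have : ∑ i ∈ F, ε i * ev (D⁻¹ • G) (v i) = D⁻¹ * ∑ i ∈ F, ε i * ev G (v i) := by
    rw [Finset.mul_sum]
    exact Finset.sum_congr rfl (fun i _ => by rw [ev_smul]; ring)
  rw [this, inv_mul_le_iff₀ hD] at h
  linarith

theorem add_ind_sq {I : Type} {G f : I → ℝ} {U S : Set I} (hG : ∀ γ, γ ∉ U → G γ = 0)
    (hd : Disjoint S U) (γ : I) : (G + S.indicator f) γ ^ 2 ≤ G γ ^ 2 + f γ ^ 2 := by
  by_cases h : γ ∈ S
  · have := hG γ (Set.disjoint_left.mp hd h)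
    simp [this, Set.indicator_of_mem h]
  · simp [Set.indicator_of_notMem h, sq_nonneg]

theorem app1 {v : ℕ → Ix →₀ ℝ} {C : ℝ} (hW : W v C) (k : ℕ) :
    ∀ e : ℝ, 0 < e → ∀ᶠ i in atTop, ∀ f, Phi f →
      |ev ((beta ⁻¹' {some k}).indicator f) (v i)| ≤ e := by
  have := gh1 v {g | ∃ f, Phi f ∧ g = (beta ⁻¹' {some k}).indicator f}
    (fun n G => (∀ γ, beta γ ≠ some k → G γ = 0) ∧
      (∀ A, (¬ ∃ j, j < k ∧ Fam j A) → G (.inr (k, A)) = 0) ∧ Lat k (4 * n) G)
    (fun n => C * (2 * 4 ^ k) * √(n + 1)) ?_ ?_ ?_ ?_ ?_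
  · intro e he
    filter_upwards [this e he] with i hi f hf
    exact hi _ ⟨f, hf, rfl⟩
  · rintro g ⟨f, hf, rfl⟩ γ
    by_cases h : γ ∈ beta ⁻¹' {some k}
    · rw [Set.indicator_of_mem h]; exact hf.bdd γ
    · rw [Set.indicator_of_notMem h]; simp
  · exact ⟨fun _ _ => rfl, fun _ _ => rfl, fun j _ s A _ _ => by simp⟩
  · rintro n G g U S ⟨h1, h2, h3⟩ hG ⟨f, hf, rfl⟩ hd
    refine ⟨fun γ hγ => ?_, fun A hA => ?_, fun j hj s A hA hs => ?_⟩
    · have : γ ∉ beta ⁻¹' {some k} := hγ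
      by_cases h : γ ∈ S
      · simp [h1 γ hγ, Set.indicator_of_mem h, Set.indicator_of_notMem this]
      · simp [h1 γ hγ, Set.indicator_of_notMem h]
    · have : (Sum.inr (k, A) : Ix) ∈ beta ⁻¹' {some k} := rfl
      by_cases h : (Sum.inr (k, A) : Ix) ∈ S
      · simp [h2 A hA, Set.indicator_of_mem h, Set.indicator_of_mem this, (hf k).2 A hA]
      · simp [h2 A hA, Set.indicator_of_notMem h]
    · have h4 := h3 j hj s A hA hs
      have h5 := (hf k).lat j hj s A hA hs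
      have h6 : ∑ m ∈ s, (G + S.indicator ((beta ⁻¹' {some k}).indicator f)) (.inr (k, A m)) ^ 2
          ≤ ∑ m ∈ s, (G (.inr (k, A m)) ^ 2 + f (.inr (k, A m)) ^ 2) := by
        refine Finset.sum_le_sum (fun m _ => ?_)
        have h7 := add_ind_sq (f := (beta ⁻¹' {some k}).indicator f) hG hd (.inr (k, A m))
        have : (Sum.inr (k, A m) : Ix) ∈ beta ⁻¹' {some k} := rfl
        rwa [Set.indicator_of_mem this] at h7
      rw [Finset.sum_add_distrib] at h6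
      push_cast
      linarith
  · rintro n G ⟨h1, h2, h3⟩ F ε hε
    have hsq : 0 < √((n : ℝ) + 1) := Real.sqrt_pos.mpr (by positivity)
    have hD : 0 < (2 * 4 ^ k) * √((n : ℝ) + 1) := by positivity
    rw [mul_assoc]
    refine scale_le hD (hW _ ?_ F ε hε)
    have hl : ∀ m, G (.inl m) = 0 := fun m => h1 _ (by simp [beta])
    intro k'
    by_cases hk : k' = k
    · subst hk
      refine ⟨fun j hj s w hw => ?_, fun A hA => by simp [h2 A hA]⟩
      have h4 := h3.val_le (by positivity) hl j hj s w hw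
      simp only [val_smul, mul_pow]
      rw [← Finset.mul_sum, inv_pow, mul_pow, Real.sq_sqrt (by positivity), inv_mul_le_iff₀ (by positivity)]
      have h5 : (4 : ℝ) ^ j ≤ 4 ^ k' := pow_le_pow_right₀ (by norm_num) hj
      have h6 : ((1 : ℝ) / 2) ^ k' ≤ (1 / 2) ^ j := pow_le_pow_of_le_one (by norm_num) (by norm_num) hj
      have h7 : (1 : ℝ) ≤ 4 ^ k' * (1 / 2) ^ k' := by
        rw [← mul_pow]; exact one_le_pow₀ (by norm_num)
      have h8 : (0 : ℝ) < 4 ^ k' := by positivity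
      have h9 : (1 : ℝ) ≤ 4 ^ k' * (1 / 2) ^ j := h7.trans (mul_le_mul_of_nonneg_left h6 h8.le)
      have hn : (0 : ℝ) ≤ n := Nat.cast_nonneg n
      calc _ ≤ 4 ^ j * (4 * (n : ℝ)) := h4
        _ ≤ 4 ^ k' * (4 * ((n : ℝ) + 1)) * 1 := by nlinarith
        _ ≤ 4 ^ k' * (4 * ((n : ℝ) + 1)) * (4 ^ k' * (1 / 2) ^ j) :=
            mul_le_mul_of_nonneg_left h9 (by positivity)
        _ = (2 * 4 ^ k') ^ 2 * ((n : ℝ) + 1) * (1 / 2) ^ j := by ring
    · refine (phi_zero k').congr (fun m => by simp [hl]) (fun A => ?_)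
      have := h1 (.inr (k', A)) (by simpa [beta] using hk)
      simp [this]
  · intro δ hδ
    exact sqrt_small _ δ hδ

theorem app2 {v : ℕ → Ix →₀ ℝ} {C : ℝ} (hW : W v C) :
    ∀ e : ℝ, 0 < e → ∀ᶠ i in atTop, ∀ f, Phi f → (∀ n, f (.inl n) = 0) → |ev f (v i)| ≤ e := by
  have := gh beta v {f | Phi f ∧ ∀ n, f (.inl n) = 0}
    (fun _ G => Phi G ∧ ∀ n, G (.inl n) = 0) (fun _ => C) ?_ ?_ ?_ ?_ ?_
  · intro e he
    filter_upwards [this e he] with i hi f hf h0
    exact hi f ⟨hf, h0⟩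
  · intro b e he
    rcases b with _ | k
    · refine Eventually.of_forall (fun i f hf => ?_)
      have : (beta ⁻¹' {none}).indicator f = 0 := by
        ext γ
        rcases γ with n | ⟨k, A⟩
        · simp [Set.indicator, hf.2 n]
        · simp [Set.indicator, beta]
      rw [this, ev_zero]; simpa using he.le
    · filter_upwards [app1 hW k e he] with i hi f hf
      exact hi f hf.1
  · exact ⟨phi_zero, fun _ => rfl⟩
  · rintro n G f U S ⟨h1, h2⟩ hG ⟨hf, hf0⟩ hd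
    have hl : ∀ m, (G + (beta ⁻¹' S).indicator f) (.inl m) = 0 := by
      intro m
      simp [Set.indicator, h2 m, hf0 m]
    refine ⟨fun k => ?_, hl⟩
    by_cases h : some k ∈ S
    · refine (hf k).congr (fun m => by rw [hl, hf0]) (fun A => ?_)
      have h3 : (Sum.inr (k, A) : Ix) ∈ beta ⁻¹' S := h
      have h4 := hG (.inr (k, A)) (Set.disjoint_left.mp hd h)
      simp [h4, Set.indicator_of_mem h3]
    · refine (h1 k).congr (fun m => by rw [hl, h2]) (fun A => ?_)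
      have h3 : (Sum.inr (k, A) : Ix) ∉ beta ⁻¹' S := h
      simp [Set.indicator_of_notMem h3]
  · intro n G hG F ε hε
    exact hW G hG.1 F ε hε
  · intro δ hδ
    obtain ⟨n, hn⟩ := exists_nat_gt (C / δ)
    exact ⟨n, by rwa [div_lt_iff₀ hδ] at hn⟩

noncomputable def emb : (ℕ →₀ ℝ) →ₗ[ℝ] (Ix →₀ ℝ) := Finsupp.lmapDomain ℝ ℝ Sum.inl

theorem ev_emb (f : Ix → ℝ) (u : ℕ →₀ ℝ) : ev f (emb u) = ev (fun n => f (.inl n)) u := by
  induction u using Finsupp.induction_linear with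
  | zero => simp
  | add a b ha hb => simp [ha, hb]
  | single n a => simp [emb, ev_single]

theorem app3 {u : ℕ → ℕ →₀ ℝ} {C : ℝ} (hW : W (fun i => emb (u i)) C) :
    ∀ e : ℝ, 0 < e → ∀ᶠ i in atTop, ∀ f, Phi f → |ev f (emb (u i))| ≤ e := by
  classical
  have := gh1 u {φ | ∀ s : Finset ℕ, ∑ m ∈ s, φ m ^ 2 ≤ 1}
    (fun n G => ∀ s : Finset ℕ, ∑ m ∈ s, G m ^ 2 ≤ n) (fun n => C * √(n + 1)) ?_ ?_ ?_ ?_ ?_
  · intro e he
    filter_upwards [this e he] with i hi f hf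
    rw [ev_emb]
    exact hi _ hf.leaves
  · intro φ hφ m
    have := hφ {m}
    simp only [Finset.sum_singleton] at this
    have := abs_le_one_iff_mul_self_le_one.mpr (show φ m * φ m ≤ 1 by nlinarith)
    linarith
  · intro s; simp
  · intro n G φ U S hQ hG hφ hd s
    have h6 : ∑ m ∈ s, (G + S.indicator φ) m ^ 2 ≤ ∑ m ∈ s, (G m ^ 2 + φ m ^ 2) :=
      Finset.sum_le_sum (fun m _ => add_ind_sq hG hd m)
    rw [Finset.sum_add_distrib] at h6
    have := hQ s
    have := hφ s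
    push_cast
    linarith
  · intro n G hQ F ε hε
    have hsq : 0 < √((n : ℝ) + 1) := Real.sqrt_pos.mpr (by positivity)
    refine scale_le hsq ?_
    set s0 : Finset ℕ := F.biUnion (fun i => (u i).support) with hs0
    set φ : ℕ → ℝ := fun m => if m ∈ s0 then (√((n : ℝ) + 1))⁻¹ * G m else 0 with hφ
    have hP : Phi (cext φ) := by
      refine phi_cext s0 φ (fun m hm => by simp [hφ, hm]) ?_
      have : ∑ m ∈ s0, φ m ^ 2 = ((n : ℝ) + 1)⁻¹ * ∑ m ∈ s0, G m ^ 2 := by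
        rw [Finset.mul_sum]
        refine Finset.sum_congr rfl (fun m hm => ?_)
        simp only [hφ, if_pos hm]
        rw [mul_pow, inv_pow, Real.sq_sqrt (by positivity)]
      rw [this, inv_mul_le_iff₀ (by positivity)]
      linarith [hQ s0]
    have := hW _ hP F ε hε
    refine le_trans (le_of_eq (Finset.sum_congr rfl (fun i hi => ?_))) this
    rw [ev_emb]
    congr 1
    refine ev_congr (fun m hm => ?_)
    have : m ∈ s0 := Finset.mem_biUnion.mpr ⟨i, hi, hm⟩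
    simp [cext, hφ, this]
  · intro δ hδ
    exact sqrt_small _ δ hδ

end Pool.Agent.H.MP_d7d6c7_an
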