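import Pool.Agent.H.MP_d7d6c7_an.C

set_option autoImplicit false
open Filter Topology

namespace Pool.Agent.H.MP_d7d6c7_an

structure Model (X : Type) [NormedAddCommGroup X] [NormedSpace ℝ X]
    (ι : (Ix →₀ ℝ) →ₗ[ℝ] X) : Prop where
  n1 : ∀ f, Phi f → ∀ v, |ev f v| ≤ ‖ι v‖
  n2 : ∀ v c, 0 ≤ c → (∀ f, Phi f → |ev f v| ≤ c) → ‖ι v‖ ≤ c
  n3 : ∀ x : X, ∀ e : ℝ, 0 < e → ∃ v, ‖x - ι v‖ ≤ e

section
variable {X : Type} [NormedAddCommGroup X] [NormedSpace ℝ X] {ι : (Ix →₀ ℝ) →ₗ[ℝ] X}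

theorem apply_eq (g : X →L[ℝ] ℝ) (v : Ix →₀ ℝ) :
    g (ι v) = ev (fun γ => g (ι (Finsupp.single γ 1))) v := by
  induction v using Finsupp.induction_linear with
  | zero => simp
  | add a b ha hb => simp [ha, hb]
  | single γ a =>
    rw [ev_single, ← smul_eq_mul, ← map_smul, ← map_smul]
    simp

theorem Model.phi (h : Model X ι) (g : X →L[ℝ] ℝ) (hg : ∀ x, |g x| ≤ ‖x‖) :
    Phi (fun γ => g (ι (Finsupp.single γ 1))) := by
  intro k
  refine ⟨fun j hj s w hw => ?_, fun A hA => ?_⟩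
  · set f0 : Ix → ℝ := fun γ => g (ι (Finsupp.single γ 1)) with hf0
    set S := ∑ m ∈ s, val k f0 (w m) ^ 2 with hS
    have hS0 : 0 ≤ S := Finset.sum_nonneg (fun _ _ => sq_nonneg _)
    have hr : (0 : ℝ) < (1 / 2) ^ j := by positivity
    set u : Ix →₀ ℝ := ∑ m ∈ s, val k f0 (w m) • vec k (w m) with hu
    have hev : ∀ f, ev f u = ∑ m ∈ s, val k f0 (w m) * val k f (w m) := by
      intro f
      simp [hu, map_sum, ev_vec]
    have h1 : ‖ι u‖ ≤ √(S * (1 / 2) ^ j) := by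
      refine h.n2 u _ (Real.sqrt_nonneg _) (fun f hf => ?_)
      refine Real.abs_le_sqrt ?_
      rw [hev]
      refine (Finset.sum_mul_sq_le_sq_mul_sq s _ _).trans ?_
      exact mul_le_mul_of_nonneg_left ((hf k).1 j hj s w hw) hS0
    have h2 : g (ι u) = S := by
      rw [apply_eq, hev]
      exact Finset.sum_congr rfl (fun m _ => by rw [sq])
    have h3 : S ≤ √(S * (1 / 2) ^ j) := by
      have := hg (ι u)
      rw [h2] at this
      exact (le_abs_self _).trans (this.trans h1)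
    have h4 : S ^ 2 ≤ S * (1 / 2) ^ j := (Real.le_sqrt hS0 (by positivity)).mp h3
    by_contra hcon
    push Not at hcon
    nlinarith
  · have h1 : ‖ι (Finsupp.single (.inr (k, A)) 1)‖ ≤ 0 :=
      h.n2 _ 0 le_rfl (fun f hf => by rw [ev_single, (hf k).2 A hA]; simp)
    have := (hg _).trans h1
    simpa using this

theorem Model.dist (h : Model X ι) (v : Ix →₀ ℝ) (η : ℝ) (hη : 0 < η)
    (hv : ∀ f, Phi f → (∀ n, f (.inl n) = 0) → |ev f v| ≤ η) :
    ∃ u : ℕ →₀ ℝ, ‖ι v - ι (emb u)‖ ≤ 2 * η := by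
  set S : Submodule ℝ X := LinearMap.range (ι ∘ₗ emb) with hS
  obtain ⟨g, hg1, hg2⟩ := exists_dual_vector'' ℝ (Submodule.Quotient.mk (ι v) : X ⧸ S)
  have hg : ∀ x, |(g.comp S.mkQL) x| ≤ ‖x‖ := by
    intro x
    have h1 := g.le_opNorm (Submodule.Quotient.mk x)
    have h2 := Submodule.Quotient.norm_mk_le S x
    have h3 : ‖g‖ * ‖(Submodule.Quotient.mk x : X ⧸ S)‖ ≤ 1 * ‖x‖ :=
      mul_le_mul hg1 h2 (norm_nonneg _) zero_le_one
    have h4 : (g.comp S.mkQL) x = g (Submodule.Quotient.mk x) := rfl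
    rw [h4, ← Real.norm_eq_abs]
    linarith
  have hP := h.phi _ hg
  have h0 : ∀ n, (g.comp S.mkQL) (ι (Finsupp.single (.inl n) 1)) = 0 := by
    intro n
    have : (Submodule.Quotient.mk (ι (Finsupp.single (.inl n) 1)) : X ⧸ S) = 0 := by
      rw [Submodule.Quotient.mk_eq_zero]
      exact ⟨Finsupp.single n 1, by simp [emb]⟩
    have h4 : (g.comp S.mkQL) (ι (Finsupp.single (.inl n) 1))
        = g (Submodule.Quotient.mk (ι (Finsupp.single (.inl n) 1))) := rfl
    rw [h4, this, map_zero]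
  have h5 := hv _ hP h0
  rw [← apply_eq] at h5
  have h6 : (g.comp S.mkQL) (ι v) = ‖(Submodule.Quotient.mk (ι v) : X ⧸ S)‖ := hg2
  rw [h6, abs_norm] at h5
  obtain ⟨m, hm1, hm2⟩ := Submodule.Quotient.norm_mk_lt (Submodule.Quotient.mk (ι v) : X ⧸ S) hη
  have h7 : ι v - m ∈ S := (Submodule.Quotient.eq S).mp hm1.symm
  obtain ⟨u, hu⟩ := h7
  refine ⟨u, ?_⟩
  have : ι v - ι (emb u) = m := by
    have h8 : ι (emb u) = ι v - m := hu
    rw [h8]; abel
  rw [this]; linarith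

def WX (x : ℕ → X) (C : ℝ) : Prop :=
  ∀ (F : Finset ℕ) (ε : ℕ → ℝ), (∀ i, |ε i| ≤ 1) → ‖∑ i ∈ F, ε i • x i‖ ≤ C

theorem WX.sub {x : ℕ → X} {C : ℝ} (h : WX x C) {φ : ℕ → ℕ} (hφ : Function.Injective φ) :
    WX (fun i => x (φ i)) C := by
  classical
  intro F ε hε
  have := h (F.image φ) (fun i => ε (Function.invFun φ i)) (fun i => hε _)
  rw [Finset.sum_image (fun a _ b _ hab => hφ hab)] at this
  simpa only [Function.leftInverse_invFun hφ _] using this

theorem WX.pert {x y : ℕ → X} {C η : ℝ} (h : WX x C) (hη : 0 ≤ η)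
    (hxy : ∀ i, ‖x i - y i‖ ≤ η * (1 / 2) ^ i) : WX y (C + 2 * η) := by
  intro F ε hε
  have h1 : ∑ i ∈ F, ε i • y i = ∑ i ∈ F, ε i • x i - ∑ i ∈ F, ε i • (x i - y i) := by
    rw [← Finset.sum_sub_distrib]
    exact Finset.sum_congr rfl (fun i _ => by rw [smul_sub]; abel)
  have h2 : ‖∑ i ∈ F, ε i • (x i - y i)‖ ≤ 2 * η := by
    refine (norm_sum_le _ _).trans ?_
    calc ∑ i ∈ F, ‖ε i • (x i - y i)‖ ≤ ∑ i ∈ F, η * (1 / 2) ^ i := by
          refine Finset.sum_le_sum (fun i _ => ?_)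
          rw [norm_smul, Real.norm_eq_abs]
          calc |ε i| * ‖x i - y i‖ ≤ 1 * (η * (1 / 2) ^ i) :=
                mul_le_mul (hε i) (hxy i) (norm_nonneg _) zero_le_one
            _ = _ := one_mul _
      _ = η * ∑ i ∈ F, (1 / 2) ^ i := by rw [Finset.mul_sum]
      _ ≤ η * 2 := by
          refine mul_le_mul_of_nonneg_left ?_ hη
          exact sum_le_hasSum F (fun i _ => by positivity) hasSum_geometric_two
      _ = 2 * η := mul_comm _ _
  rw [h1]
  exact (norm_sub_le _ _).trans (add_le_add (h F ε hε) h2)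

theorem Model.w (h : Model X ι) {v : ℕ → Ix →₀ ℝ} {C : ℝ} (hv : WX (fun i => ι (v i)) C) :
    W v C := by
  intro g hg F ε hε
  have h1 := h.n1 g hg (∑ i ∈ F, ε i • v i)
  have h2 := hv F ε hε
  simp only [map_sum, map_smul, smul_eq_mul] at h1
  exact (le_abs_self _).trans (h1.trans h2)

theorem Model.noC0 (h : Model X ι) {x : ℕ → X} {C : ℝ} (hx : WX x C) (δ : ℝ) (hδ : 0 < δ) :
    ∃ i, ‖x i‖ < δ := by
  have hη : ∀ i : ℕ, 0 < δ / 8 * (1 / 2 : ℝ) ^ i := fun i => by positivity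
  have hη' : ∀ i : ℕ, δ / 8 * (1 / 2 : ℝ) ^ i ≤ δ / 8 := fun i =>
    mul_le_of_le_one_right (by positivity) (half_pow_le i)
  choose v hv using fun i => h.n3 (x i) _ (hη i)
  have h1 := hx.pert (by positivity) hv
  have h2 := app2 (h.w h1)
  obtain ⟨φ, hφ, h3⟩ := extraction_forall_of_eventually (fun l => h2 _ (hη l))
  choose u hu using fun l => h.dist (v (φ l)) _ (hη l) (h3 l)
  have h4 : WX (fun l => ι (emb (u l))) (C + 2 * (δ / 8) + 2 * (δ / 4)) := by
    refine (h1.sub hφ.injective).pert (by positivity) (fun l => ?_)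
    refine (hu l).trans (le_of_eq ?_)
    ring
  obtain ⟨l, hl⟩ := (app3 (h.w (v := fun l => emb (u l)) h4) (δ / 4) (by positivity)).exists
  have h5 := h.n2 _ _ (by positivity) hl
  refine ⟨φ l, ?_⟩
  have h6 : x (φ l) = (x (φ l) - ι (v (φ l))) + (ι (v (φ l)) - ι (emb (u l))) + ι (emb (u l)) := by
    abel
  rw [h6]
  have h7 := norm_add₃_le (a := x (φ l) - ι (v (φ l))) (b := ι (v (φ l)) - ι (emb (u l)))
    (c := ι (emb (u l)))
  linarith [hv (φ l), hu l, hη' l, hη' (φ l)]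

theorem reach (k : ℕ) : ∀ (j : ℕ) (g : ℕ → X →L[ℝ] ℝ) (m : ℕ → ℕ) (e : ℝ),
    (∀ x, Tendsto (fun n => g n x) atTop (𝓝 0)) → Function.Injective m → 0 < e →
    ∃ s w, Good j w ∧ supp w ⊆ Set.range m ∧
      |g s (ι (vec k w)) - g s (ι (Finsupp.single (.inl (m s)) 1))| ≤ e := by
  intro j
  induction j with
  | zero =>
    intro g m e _ _ he
    refine ⟨0, .leaf (m 0), ⟨_, rfl⟩, ?_, by simpa [vec] using he.le⟩
    simp [supp]
  | succ j ih =>
    intro g m e hg hm he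
    have hp : ∀ l : ℕ, Function.Injective (Nat.pair l) := fun l a b hab =>
      (Nat.pair_eq_pair.mp hab).2
    have hp' : ∀ l : ℕ, Tendsto (Nat.pair l) atTop atTop := fun l =>
      tendsto_atTop_mono (fun s => Nat.right_le_pair l s) tendsto_id
    choose s w hw1 hw2 hw3 using fun l => ih (fun t => g (Nat.pair l t)) (fun t => m (Nat.pair l t))
      (e / 2) (fun x => (hg x).comp (hp' l)) (hm.comp (hp l)) (by linarith)
    have hF : Fam j w := ⟨hw1, fun p q hpq => by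
      refine Set.disjoint_left.mpr (fun n h1 h2 => ?_)
      obtain ⟨a, ha⟩ := hw2 p h1
      obtain ⟨b, hb⟩ := hw2 q h2
      exact hpq (Nat.pair_eq_pair.mp (hm (ha.trans hb.symm))).1⟩
    have ht : Tendsto (fun l => Nat.pair l (s l)) atTop atTop :=
      tendsto_atTop_mono (fun l => Nat.left_le_pair l (s l)) tendsto_id
    obtain ⟨l, hl⟩ := (ev_small ((hg (ι (Finsupp.single (.inr (k, w)) 1))).comp ht)
      (show 0 < e / 2 by linarith)).exists
    refine ⟨Nat.pair l (s l), .node w l, good_node hF l, ?_, ?_⟩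
    · intro n hn
      obtain ⟨a, ha⟩ := Set.mem_iUnion.mp hn
      obtain ⟨b, hb⟩ := hw2 a ha
      exact ⟨_, hb⟩
    · have h1 := abs_le.mp (hw3 l)
      have h2 := abs_le.mp hl
      simp only [Function.comp] at h2
      simp only [vec, map_sub]
      rw [abs_le]
      constructor <;> linarith [h1.1, h1.2, h2.1, h2.2]

theorem Model.limited [CompleteSpace X] (h : Model X ι) (f : ℕ → X →L[ℝ] ℝ)
    (hf : ∀ x, Tendsto (fun n => f n x) atTop (𝓝 0)) (e : ℝ) (he : 0 < e) :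
    ∀ᶠ n in atTop, ∀ m : ℕ, |f n (ι (Finsupp.single (.inl m) 1))| ≤ e := by
  by_contra hcon
  have hfr : ∃ᶠ n in atTop, ∃ m : ℕ, e < |f n (ι (Finsupp.single (.inl m) 1))| := by
    rw [Filter.not_eventually] at hcon
    refine hcon.mono (fun i hi => ?_)
    push Not at hi
    exact hi
  obtain ⟨K, hK⟩ := banach_steinhaus (g := f) (fun x => by
    obtain ⟨C, hC⟩ := (hf x).norm.bddAbove_range
    exact ⟨C, fun i => hC ⟨i, rfl⟩⟩)
  have hK0 : 0 ≤ K := (norm_nonneg _).trans (hK 0)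
  have h1 : ∀ N : ℕ, ∃ᶠ m in atTop, ∃ n, N ≤ n ∧ e < |f n (ι (Finsupp.single (.inl m) 1))| := by
    intro N
    rw [frequently_atTop]
    intro M
    have h2 : ∀ᶠ n in atTop, ∀ m ∈ Finset.range M, |f n (ι (Finsupp.single (.inl m) 1))| ≤ e :=
      (eventually_all_finset _).mpr (fun m _ => ev_small (hf _) he)
    obtain ⟨n, ⟨m, hm⟩, h3, h4⟩ := (hfr.and_eventually (h2.and (eventually_ge_atTop N))).exists
    refine ⟨m, ?_, n, h4, hm⟩
    by_contra hlt
    exact absurd (h3 m (Finset.mem_range.mpr (not_le.mp hlt))) (not_le.mpr hm)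
  obtain ⟨m, hm, h2⟩ := extraction_forall_of_frequently h1
  choose n hn1 hn2 using h2
  have hn : Tendsto n atTop atTop := tendsto_atTop_mono hn1 tendsto_id
  obtain ⟨k, hk⟩ := exists_pow_lt_of_lt_one (show 0 < (e / 2 / (K + 1)) ^ 2 by positivity)
    (show (1 / 2 : ℝ) < 1 by norm_num)
  obtain ⟨s, w, hw1, -, hw3⟩ := reach (ι := ι) k k (fun t => f (n t)) m (e / 2)
    (fun x => (hf x).comp hn) hm.injective (by linarith)
  have h3 : ‖ι (vec k w)‖ ≤ e / 2 / (K + 1) := by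
    refine h.n2 _ _ (by positivity) (fun g hg => ?_)
    rw [ev_vec]
    exact abs_le.mpr (abs_le_of_sq_le_sq' (((hg k).single le_rfl hw1).trans hk.le) (by positivity))
  have h4 : |f (n s) (ι (vec k w))| ≤ e / 2 := by
    rw [← Real.norm_eq_abs]
    refine ((f (n s)).le_opNorm _).trans ?_
    calc ‖f (n s)‖ * ‖ι (vec k w)‖ ≤ (K + 1) * (e / 2 / (K + 1)) :=
          mul_le_mul (by linarith [hK (n s)]) h3 (norm_nonneg _) (by linarith)
      _ = e / 2 := by field_simp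
  have h5 := hn2 s
  have h6 := abs_sub_abs_le_abs_sub (f (n s) (ι (Finsupp.single (.inl (m s)) 1)))
    (f (n s) (ι (vec k w)))
  rw [abs_sub_comm] at h6
  linarith

theorem Model.sep (h : Model X ι) {a b : ℕ} (hab : a ≠ b) :
    1 ≤ ‖ι (Finsupp.single (.inl a) 1) - ι (Finsupp.single (.inl b) 1)‖ := by
  have hP : Phi (cext (Pi.single a 1)) :=
    phi_cext {a} _ (fun n hn => Pi.single_eq_of_ne (by simpa using hn) _) (by simp)
  have := h.n1 _ hP (Finsupp.single (.inl a) 1 - Finsupp.single (.inl b) 1)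
  rw [map_sub, map_sub, ev_single, ev_single] at this
  simpa [cext, Pi.single_eq_of_ne hab.symm] using this

end

abbrev L : Type := lp (fun _ : {f : Ix → ℝ // Phi f} => ℝ) ⊤

noncomputable def gen (γ : Ix) : L :=
  ⟨fun f => f.1 γ, memℓp_infty ⟨2, by rintro _ ⟨f, rfl⟩; exact f.2.bdd γ⟩⟩

noncomputable def JJ : (Ix →₀ ℝ) →ₗ[ℝ] L := Finsupp.linearCombination ℝ gen

theorem JJ_apply (v : Ix →₀ ℝ) (f : {f : Ix → ℝ // Phi f}) : JJ v f = ev f.1 v := by
  induction v using Finsupp.induction_linear with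
  | zero => simp
  | add a b ha hb => simp [ha, hb]
  | single γ a => simp [JJ, ev_single, gen]

abbrev XX : Type := (LinearMap.range JJ).topologicalClosure

noncomputable def io : (Ix →₀ ℝ) →ₗ[ℝ] XX :=
  JJ.codRestrict _ (fun v => Submodule.le_topologicalClosure _ ⟨v, rfl⟩)

theorem model : Model XX io where
  n1 := fun f hf v => by
    have := lp.norm_apply_le_norm (p := ⊤) (by simp) (JJ v) ⟨f, hf⟩
    rw [JJ_apply] at this
    exact this
  n2 := fun v c hc h => by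
    have : ‖JJ v‖ ≤ c := lp.norm_le_of_forall_le hc (fun f => by rw [JJ_apply]; exact h f.1 f.2)
    exact this
  n3 := fun x e he => by
    have hx : (x : L) ∈ closure (LinearMap.range JJ : Set L) := x.2
    obtain ⟨y, ⟨v, rfl⟩, hy⟩ := Metric.mem_closure_iff.mp hx e he
    refine ⟨v, ?_⟩
    rw [dist_eq_norm] at hy
    exact hy.le

end Pool.Agent.H.MP_d7d6c7_an
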